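import Pool.Agent.H.MP_42a48c_pr.D

namespace Pool.Agent.Results.MP_42a48c_pr.Yes

open Filter MeasureTheory Pool.Agent.H.MP_42a48c_pr
open scoped ENNReal

theorem result (V : Type) [Infinite V] [MeasurableSpace V] [DiscreteMeasurableSpace V]
    (G : SimpleGraph V) [G.LocallyFinite] (hc : G.Connected)
    (τ : V → Equiv.Perm V) (hτ : ∀ x, (τ x).IsCycleOn (G.neighborFinset x))
    (a : V) (ha : green G a a ≠ ⊤)
    (μ : Measure (V → V)) [IsProbabilityMeasure μ] (hμ : IsOWUSF G a μ) :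
    ∀ᵐ ρ ∂μ, ∀ x, limsup (fun n : ℕ => (occ τ a n ρ x : ℝ≥0∞) / n) atTop ≤ green G a x :=
  main hc hτ ha hμ

end Pool.Agent.Results.MP_42a48c_pr.Yes
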